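import Pool.Agent.R801.AB.Final

/-!
# The cost of affine signed permutations of type `B`

For every `n ≥ 1` and every `w` in the group `W` of type affine `B`, the least cost of a
factorization of `w` into reflections of `W` is `tvd w / 2 + bl^C w - bl^B w`.
-/

namespace Pool.Agent.Results.MP_0e82d3_co.AffineBCost

open Pool.Agent.R801.AB

theorem result : ∀ n : ℕ, 1 ≤ n → ∀ w : Equiv.Perm ℤ, InB n w →
    IsLeast (costs n w) ((tvd n w : ℚ) / 2 + blC n w - blB n w) :=
  fun n _ w hw => Pool.Agent.R801.AB.main n w hw

end Pool.Agent.Results.MP_0e82d3_co.AffineBCost
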